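import Pool.Agent.W528.HS.Stm

/-!
# Project HS, part OC: closed points of an open set of projective space
-/

set_option autoImplicit false
set_option linter.unusedSectionVars false

namespace Pool.Agent.W715.HS.OC

open Finset Pool.Agent.W528.HA Pool.Agent.W528.HS

/-- A finite stable set all of whose points have minimal period `d`. -/
theorem dvd_card_of_minimalPeriod {α : Type} (f : α → α) (hf : Function.Injective f) (d : ℕ)
    (hd : 0 < d) : ∀ (m : ℕ) (S : Finset α), S.card = m → (∀ x ∈ S, f x ∈ S) →
      (∀ x ∈ S, Function.minimalPeriod f x = d) → d ∣ S.card := by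
  classical
  intro m
  induction m using Nat.strong_induction_on with
  | _ m ih =>
    intro S hS hstab hper
    rcases S.eq_empty_or_nonempty with rfl | ⟨x, hx⟩
    · simp
    · let O : Finset α := (range d).image (fun i => f^[i] x)
      have hO : O.card = d := by
        rw [card_image_of_injOn, card_range]
        have h := Function.iterate_injOn_Iio_minimalPeriod (f := f) (x := x)
        rw [hper x hx] at h
        intro a ha b hb hab
        exact h (by simpa using ha) (by simpa using hb) hab
      have hit : ∀ i, f^[i] x ∈ S := by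
        intro i
        induction i with
        | zero => exact hx
        | succ i ihi => rw [Function.iterate_succ_apply']; exact hstab _ ihi
      have hOS : O ⊆ S := by
        intro y hy
        rw [mem_image] at hy
        obtain ⟨i, _, rfl⟩ := hy
        exact hit i
      have h1 : (S \ O).card = S.card - d := by rw [card_sdiff_of_subset hOS, hO]
      have h2 : d ≤ S.card := by rw [← hO]; exact card_le_card hOS
      have h3 : d ∣ (S \ O).card := by
        refine ih (S \ O).card (by omega) (S \ O) rfl ?_ ?_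
        · intro y hy
          rw [mem_sdiff] at hy ⊢
          refine ⟨hstab y hy.1, ?_⟩
          intro hfy
          apply hy.2
          rw [mem_image] at hfy ⊢
          obtain ⟨i, hi, hi2⟩ := hfy
          rw [mem_range] at hi
          rcases Nat.eq_zero_or_pos i with rfl | hi0
          · refine ⟨d - 1, by rw [mem_range]; omega, ?_⟩
            apply hf
            rw [← Function.iterate_succ_apply' f, ← hi2, show (d - 1).succ = d by omega]
            have h5 := Function.iterate_minimalPeriod (f := f) (x := x)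
            rw [hper x hx] at h5
            exact h5
          · refine ⟨i - 1, by rw [mem_range]; omega, ?_⟩
            apply hf
            rw [← Function.iterate_succ_apply' f, ← hi2, show (i - 1).succ = i by omega]
        · intro y hy
          exact hper y (mem_sdiff.mp hy).1
      have h4 : S.card = (S \ O).card + d := by omega
      rw [h4]
      exact dvd_add h3 dvd_rfl

theorem geo (N Q : ℕ) (hQ : Q ≡ 1 [MOD N]) (hQ1 : 1 ≤ Q) (m : ℕ) :
    ∃ M, M ≡ m [MOD N] ∧ Q ^ m - 1 = M * (Q - 1) := by
  induction m with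
  | zero => exact ⟨0, rfl, by simp⟩
  | succ m ih =>
    obtain ⟨M, hM, hM2⟩ := ih
    refine ⟨Q * M + 1, ?_, ?_⟩
    · have := (hQ.mul hM).add_right 1
      rwa [one_mul] at this
    · have h1 : 1 ≤ Q ^ m := Nat.one_le_pow _ _ hQ1
      obtain ⟨c, hc⟩ : ∃ c, Q = c + 1 := ⟨Q - 1, by omega⟩
      have h2 : Q ^ m = M * (Q - 1) + 1 := by omega
      rw [pow_succ, h2, hc, Nat.add_sub_cancel]
      apply Nat.sub_eq_of_eq_add
      ring

theorem kv_pow {L R : Type} [Field L] [CommRing R] {N : ℕ} (hN : 0 < N) {z : L}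
    (hz : IsPrimitiveRoot z N) {μ : R} (hμ : μ ^ N = 1) (m : ℕ) : kv N z μ (z ^ m) = μ ^ m := by
  unfold kv
  have h1 : z ^ m = z ^ (m % N) := (pow_eq_pow_of_modEq (Nat.mod_modEq m N) hz.pow_eq_one).symm
  have h2 : μ ^ m = μ ^ (m % N) := (pow_eq_pow_of_modEq (Nat.mod_modEq m N) hμ).symm
  rw [Finset.sum_eq_single (m % N)]
  · rw [if_pos h1, h2]
  · intro k hk hkm
    rw [if_neg]
    intro h3
    rw [h1] at h3
    exact hkm (hz.pow_inj (Nat.mod_lt _ hN) (mem_range.mp hk) h3).symm
  · intro h
    exact absurd (mem_range.mpr (Nat.mod_lt _ hN)) h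

theorem kv_zero {L R : Type} [Field L] [CommRing R] {N : ℕ} {z : L} (hz : z ≠ 0) {μ : R} :
    kv N z μ (0 : L) = 0 := by
  unfold kv
  apply Finset.sum_eq_zero
  intro k _
  rw [if_neg]
  exact (pow_ne_zero k hz).symm

theorem kv_map {L L' R : Type} [Field L] [Field L'] [CommRing R] (e : L →+* L') (N : ℕ) (z : L)
    (μ : R) (y : L) : kv N (e z) μ (e y) = kv N z μ y := by
  unfold kv
  apply Finset.sum_congr rfl
  intro k _
  by_cases h : y = z ^ k
  · rw [if_pos h, if_pos (by rw [h, map_pow])]
  · rw [if_neg h, if_neg (fun h2 => h (e.injective (by rw [h2, map_pow])))]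

section

variable {κ : Type} [Field κ] [Fintype κ]

/-- the Frobenius on vectors -/
noncomputable def Phi {k : ℕ} (w : Fin k → AlgebraicClosure κ) : Fin k → AlgebraicClosure κ :=
  fun l => FiniteField.frobeniusAlgHom κ (AlgebraicClosure κ) (w l)

theorem Phi_apply {k : ℕ} (w : Fin k → AlgebraicClosure κ) (l : Fin k) :
    Phi w l = w l ^ Fintype.card κ := rfl

theorem Phi_inj {k : ℕ} : Function.Injective (Phi (κ := κ) (k := k)) := by
  intro v w h
  funext l
  exact (FiniteField.frobeniusAlgHom κ (AlgebraicClosure κ)).toRingHom.injective (congrFun h l)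

theorem Phi_iter {k : ℕ} (n : ℕ) (w : Fin k → AlgebraicClosure κ) (l : Fin k) :
    (Phi^[n] w) l = w l ^ (Fintype.card κ ^ n) := by
  induction n with
  | zero => simp
  | succ n ih =>
    rw [Function.iterate_succ_apply', Phi_apply, ih, ← pow_mul, pow_succ]

theorem aeval_Phi {k : ℕ} (F : MvPolynomial (Fin k) κ) (w : Fin k → AlgebraicClosure κ) :
    MvPolynomial.aeval (Phi w) F = (MvPolynomial.aeval w F) ^ Fintype.card κ :=
  (MvPolynomial.comp_aeval_apply (f := w) (FiniteField.frobeniusAlgHom κ (AlgebraicClosure κ))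
    F).symm

theorem aeval_Phi_iter {k : ℕ} (F : MvPolynomial (Fin k) κ) (n : ℕ)
    (w : Fin k → AlgebraicClosure κ) :
    MvPolynomial.aeval (Phi^[n] w) F = (MvPolynomial.aeval w F) ^ (Fintype.card κ ^ n) := by
  induction n with
  | zero => simp
  | succ n ih =>
    rw [Function.iterate_succ_apply', aeval_Phi, ih, ← pow_mul, pow_succ]

/-- The points of degree `d` with character value `z ^ i`. -/
def Y (N : ℕ) (z : κ) {k : ℕ} (F : MvPolynomial (Fin k) κ) (d i : ℕ) :
    Set (Fin k → AlgebraicClosure κ) :=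
  {w | IsNorm w ∧ Function.minimalPeriod Phi w = d ∧
    (MvPolynomial.aeval w F) ^ ((Fintype.card κ ^ d - 1) / N) =
      (algebraMap κ (AlgebraicClosure κ) z) ^ i}

theorem isNorm_Phi {k : ℕ} {w : Fin k → AlgebraicClosure κ} (hw : IsNorm w) : IsNorm (Phi w) := by
  obtain ⟨i, hi, hj⟩ := hw
  refine ⟨i, ?_, ?_⟩
  · rw [Phi_apply, hi, one_pow]
  · intro j hij
    rw [Phi_apply, hj j hij, zero_pow Fintype.card_ne_zero]

theorem pow_eq_self_finite (m : ℕ) (hm : 2 ≤ m) :
    {x : AlgebraicClosure κ | x ^ m = x}.Finite ∧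
      {x : AlgebraicClosure κ | x ^ m = x}.ncard ≤ m := by
  classical
  let P : Polynomial (AlgebraicClosure κ) := Polynomial.X ^ m - Polynomial.X
  have hdeg : P.natDegree = m := by
    have := Polynomial.natDegree_X_pow_sub_C (R := AlgebraicClosure κ) (n := m) (r := 0)
    apply Polynomial.natDegree_sub_eq_left_of_natDegree_lt _ |>.trans
    · exact Polynomial.natDegree_X_pow m
    · rw [Polynomial.natDegree_X_pow, Polynomial.natDegree_X]
      omega
  have hP : P ≠ 0 := by
    intro h
    rw [h, Polynomial.natDegree_zero] at hdeg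
    omega
  have hset : {x : AlgebraicClosure κ | x ^ m = x} = (P.roots.toFinset : Set _) := by
    ext x
    simp only [Set.mem_ofPred_eq, Finset.mem_coe, Multiset.mem_toFinset, Polynomial.mem_roots hP,
      Polynomial.IsRoot, P, Polynomial.eval_sub, Polynomial.eval_pow, Polynomial.eval_X, sub_eq_zero]
  rw [hset]
  refine ⟨Finset.finite_toSet _, ?_⟩
  rw [Set.ncard_coe_finset]
  calc P.roots.toFinset.card ≤ Multiset.card P.roots := Multiset.toFinset_card_le _
    _ ≤ P.natDegree := Polynomial.card_roots' P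
    _ = m := hdeg

theorem fixed_finite {k : ℕ} (n : ℕ) (hn : 0 < n) :
    {w : Fin k → AlgebraicClosure κ | Phi^[n] w = w}.Finite := by
  have hq : 2 ≤ Fintype.card κ := Fintype.one_lt_card
  have h2 : 2 ≤ Fintype.card κ ^ n := le_trans hq (Nat.le_self_pow hn.ne' _)
  refine (Set.Finite.pi (fun _ : Fin k => (pow_eq_self_finite (κ := κ) _ h2).1)).subset ?_
  intro w hw l _
  have h3 := congrFun hw l
  rw [Phi_iter] at h3
  exact h3

theorem Y_sub_fixed (N : ℕ) (z : κ) {k : ℕ} (F : MvPolynomial (Fin k) κ) (d i n : ℕ)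
    (hdn : d ∣ n) : Y N z F d i ⊆ {w | Phi^[n] w = w} := by
  rintro w ⟨_, hd, _⟩
  obtain ⟨c, rfl⟩ := hdn
  have h : Function.IsPeriodicPt Phi d w := by
    rw [← hd]
    exact Function.isPeriodicPt_minimalPeriod _ _
  exact h.mul_const c

theorem Y_finite (N : ℕ) (z : κ) {k : ℕ} (F : MvPolynomial (Fin k) κ) (d i : ℕ) (hd : 0 < d) :
    (Y N z F d i).Finite :=
  (fixed_finite d hd).subset (Y_sub_fixed N z F d i d dvd_rfl)

theorem Y_dvd (N : ℕ) (z : κ) {k : ℕ} (F : MvPolynomial (Fin k) κ) (d i : ℕ) (hd : 0 < d) :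
    d ∣ (Y N z F d i).ncard := by
  rw [Set.ncard_eq_toFinset_card _ (Y_finite N z F d i hd)]
  refine dvd_card_of_minimalPeriod Phi Phi_inj d hd _ _ rfl ?_ ?_
  · intro w hw
    rw [Set.Finite.mem_toFinset] at hw ⊢
    obtain ⟨h1, h2, h3⟩ := hw
    refine ⟨isNorm_Phi h1, ?_, ?_⟩
    · rw [Function.minimalPeriod_apply, h2]
      rw [← Function.minimalPeriod_pos_iff_mem_periodicPts, h2]
      exact hd
    · rw [aeval_Phi, ← pow_mul, mul_comm, pow_mul, h3, ← pow_mul, mul_comm, pow_mul, ← map_pow,
        FiniteField.pow_card]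
  · intro w hw
    rw [Set.Finite.mem_toFinset] at hw
    exact hw.2.1

open Classical in
/-- The value of the character at a point that is fixed by the `n`-th power of Frobenius. -/
theorem value (N : ℕ) (z : κ) (hN : 0 < N) (hz : IsPrimitiveRoot z N) {k : ℕ}
    (F : MvPolynomial (Fin k) κ) (n : ℕ) (hn : 0 < n) (w : Fin k → AlgebraicClosure κ)
    (hw : Phi^[n] w = w) (R : Type) [CommRing R] (μ : R) (hμ : μ ^ N = 1) :
    (if IsNorm w then kv N (algebraMap κ (AlgebraicClosure κ) z) μ
      ((MvPolynomial.aeval w F) ^ ((Fintype.card κ ^ n - 1) / N)) else 0) =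
    ∑ d ∈ n.divisors, ∑ i ∈ range N, if w ∈ Y N z F d i then μ ^ (i * (n / d)) else 0 := by
  have hzΩ : IsPrimitiveRoot (algebraMap κ (AlgebraicClosure κ) z) N :=
    hz.map_of_injective (algebraMap κ (AlgebraicClosure κ)).injective
  have hq : 2 ≤ Fintype.card κ := Fintype.one_lt_card
  have hNq : N ∣ Fintype.card κ - 1 := by
    apply hz.dvd_of_pow_eq_one
    exact FiniteField.pow_card_sub_one_eq_one z (hz.ne_zero hN.ne')
  have hNd : ∀ d, N * ((Fintype.card κ ^ d - 1) / N) = Fintype.card κ ^ d - 1 := by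
    intro d
    apply Nat.mul_div_cancel'
    have := Nat.sub_dvd_pow_sub_pow (Fintype.card κ) 1 d
    rw [one_pow] at this
    exact hNq.trans this
  have htpos : ∀ d, 0 < d → 0 < (Fintype.card κ ^ d - 1) / N := by
    intro d hd
    have h1 := hNd d
    have h2 : 2 ≤ Fintype.card κ ^ d := le_trans hq (Nat.le_self_pow hd.ne' _)
    rcases Nat.eq_zero_or_pos ((Fintype.card κ ^ d - 1) / N) with h | h
    · rw [h, mul_zero] at h1
      omega
    · exact h
  by_cases hnorm : IsNorm w
  swap
  · rw [if_neg hnorm]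
    symm
    apply Finset.sum_eq_zero
    intro d _
    apply Finset.sum_eq_zero
    intro i _
    rw [if_neg]
    exact fun h => hnorm h.1
  rw [if_pos hnorm]
  by_cases hy : MvPolynomial.aeval w F = 0
  · rw [hy, zero_pow (htpos n hn).ne', kv_zero (hzΩ.ne_zero hN.ne')]
    symm
    apply Finset.sum_eq_zero
    intro d hd
    apply Finset.sum_eq_zero
    intro i _
    rw [if_neg]
    rintro ⟨_, _, h3⟩
    rw [hy, zero_pow (htpos d (Nat.pos_of_mem_divisors hd)).ne'] at h3
    exact pow_ne_zero i (hzΩ.ne_zero hN.ne') h3.symm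
  · set d := Function.minimalPeriod Phi w with hd
    have hper : Function.IsPeriodicPt Phi n w := hw
    have hdn : d ∣ n := hper.minimalPeriod_dvd
    have hdpos : 0 < d := Nat.pos_of_dvd_of_pos hdn hn
    have hfix : Phi^[d] w = w := Function.isPeriodicPt_minimalPeriod _ _
    have hyd : (MvPolynomial.aeval w F) ^ (Fintype.card κ ^ d - 1) = 1 := by
      have h1 := aeval_Phi_iter F d w
      rw [hfix] at h1
      have h2 : 1 ≤ Fintype.card κ ^ d := Nat.one_le_pow _ _ (by omega)
      have h3 : (MvPolynomial.aeval w F) ^ (Fintype.card κ ^ d - 1) * MvPolynomial.aeval w F =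
          1 * MvPolynomial.aeval w F := by
        rw [← pow_succ, Nat.sub_add_cancel h2, one_mul]
        exact h1.symm
      exact mul_right_cancel₀ hy h3
    have : NeZero N := ⟨hN.ne'⟩
    obtain ⟨i, hi, hzi⟩ := hzΩ.eq_pow_of_pow_eq_one
      (ξ := (MvPolynomial.aeval w F) ^ ((Fintype.card κ ^ d - 1) / N)) (by
        rw [← pow_mul, mul_comm, hNd, hyd])
    have hmem : w ∈ Y N z F d i := ⟨hnorm, rfl, hzi.symm⟩
    rw [Finset.sum_eq_single d, Finset.sum_eq_single i, if_pos hmem]
    · obtain ⟨c, hc⟩ := hdn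
      have hnd : n / d = c := by rw [hc, Nat.mul_div_cancel_left _ hdpos]
      have hQ : Fintype.card κ ^ d ≡ 1 [MOD N] := by
        have h1 : 1 ≤ Fintype.card κ ^ d := Nat.one_le_pow _ _ (by omega)
        apply Nat.ModEq.symm
        rw [Nat.modEq_iff_dvd' h1]
        exact ⟨_, (hNd d).symm⟩
      obtain ⟨M, hM, hM2⟩ := geo N (Fintype.card κ ^ d) hQ (Nat.one_le_pow _ _ (by omega)) c
      have h4 : (Fintype.card κ ^ n - 1) / N = ((Fintype.card κ ^ d - 1) / N) * M := by
        rw [hc, pow_mul, hM2]
        conv_lhs => rw [← hNd d]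
        rw [show M * (N * ((Fintype.card κ ^ d - 1) / N)) =
          N * (((Fintype.card κ ^ d - 1) / N) * M) by ring, Nat.mul_div_cancel_left _ hN]
      rw [h4, pow_mul, ← hzi, ← pow_mul, hnd]
      rw [kv_pow hN hzΩ hμ]
      apply pow_eq_pow_of_modEq _ hμ
      exact Nat.ModEq.mul_left i hM
    · intro j hj hji
      rw [if_neg]
      rintro ⟨_, _, h3⟩
      rw [← hzi] at h3
      exact hji (hzΩ.pow_inj hi (mem_range.mp hj) h3).symm
    · intro h
      exact absurd (mem_range.mpr hi) h
    · intro d' _ hd'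
      apply Finset.sum_eq_zero
      intro j _
      rw [if_neg]
      rintro ⟨_, h2, _⟩
      exact hd' h2.symm
    · intro h
      exact absurd (Nat.mem_divisors.mpr ⟨hdn, hn.ne'⟩) h

theorem range_eq (L : Type) [Field L] [Fintype L] [Algebra κ L]
    (e : L →ₐ[κ] AlgebraicClosure κ) : Set.range e = {x | x ^ Fintype.card L = x} := by
  have h2 : 2 ≤ Fintype.card L := Fintype.one_lt_card
  obtain ⟨h3, h4⟩ := pow_eq_self_finite (κ := κ) _ h2
  apply Set.eq_of_subset_of_ncard_le _ _ h3
  · rintro _ ⟨y, rfl⟩
    change e y ^ Fintype.card L = e y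
    rw [← map_pow, FiniteField.pow_card]
  · have hinj : Function.Injective e := e.toRingHom.injective
    rw [← Set.image_univ, Set.ncard_image_of_injective _ hinj, Set.ncard_univ,
      Nat.card_eq_fintype_card]
    exact h4

end

theorem main : Pool.Agent.W528.HS.OC := by
  classical
  intro κ _ _ N z hN hz k F
  refine ⟨fun d i => (Y N z F d i).ncard / d, ?_⟩
  intro L _ _ _
  set n := Module.finrank κ L with hndef
  have hn : 0 < n := Module.finrank_pos
  have hcard : Fintype.card L = Fintype.card κ ^ n := Module.card_eq_pow_finrank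
  let e : L →ₐ[κ] AlgebraicClosure κ := IsAlgClosed.lift
  have hinj : Function.Injective e := e.toRingHom.injective
  let T : (Fin k → L) → (Fin k → AlgebraicClosure κ) := fun v l => e (v l)
  have hT : Function.Injective T := by
    intro v w h
    funext l
    exact hinj (congrFun h l)
  have hTfix : ∀ v, Phi^[n] (T v) = T v := by
    intro v
    funext l
    rw [Phi_iter, ← hcard]
    change e (v l) ^ _ = e (v l)
    rw [← map_pow, FiniteField.pow_card]
  have hTsurj : ∀ w, Phi^[n] w = w → ∃ v, T v = w := by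
    intro w hw
    have h1 : ∀ l, ∃ y, e y = w l := by
      intro l
      have h2 : w l ∈ {x : AlgebraicClosure κ | x ^ Fintype.card L = x} := by
        have h3 := congrFun hw l
        rw [Phi_iter, ← hcard] at h3
        exact h3
      rw [← range_eq L e] at h2
      exact h2
    choose v hv using h1
    exact ⟨v, funext hv⟩
  have hTnorm : ∀ v, IsNorm (T v) ↔ IsNorm v := by
    intro v
    unfold IsNorm
    constructor
    · rintro ⟨i, hi, hj⟩
      refine ⟨i, hinj (by rw [map_one]; exact hi), fun j hij => hinj (by rw [map_zero]; exact hj j hij)⟩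
    · rintro ⟨i, hi, hj⟩
      refine ⟨i, ?_, ?_⟩
      · change e (v i) = 1
        rw [hi, map_one]
      · intro j hij
        change e (v j) = 0
        rw [hj j hij, map_zero]
  have hTF : ∀ v, e (MvPolynomial.eval v (F.map (algebraMap κ L))) =
      MvPolynomial.aeval (T v) F := by
    intro v
    have h1 : MvPolynomial.eval v (F.map (algebraMap κ L)) = MvPolynomial.aeval v F := by
      rw [MvPolynomial.eval_map, MvPolynomial.aeval_def]
    rw [h1]
    exact MvPolynomial.comp_aeval_apply (f := v) e F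
  have hcount : ∀ d i, d ∣ n →
      (Finset.univ.filter (fun v => T v ∈ Y N z F d i)).card = (Y N z F d i).ncard := by
    intro d i hd
    have h2 : Y N z F d i =
        T '' ((Finset.univ.filter (fun v => T v ∈ Y N z F d i) : Finset _) : Set _) := by
      ext w
      constructor
      · intro hw
        obtain ⟨v, rfl⟩ := hTsurj w (Y_sub_fixed N z F d i n hd hw)
        exact ⟨v, by simpa using hw, rfl⟩
      · rintro ⟨v, hv, rfl⟩
        simpa using hv
    conv_rhs => rw [h2]
    rw [Set.ncard_image_of_injective _ hT, Set.ncard_coe_finset]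
  have hmain : ∀ (R : Type) [CommRing R] (μ : R), μ ^ N = 1 →
      projSum L R N (F.map (algebraMap κ L)) (algebraMap κ L z) μ
        = orbSum N μ (fun d i => (Y N z F d i).ncard / d) n := by
    intro R _ μ hμ
    have h1 : ∀ v : Fin k → L, (if IsNorm v then kv N (algebraMap κ L z) μ
        ((MvPolynomial.eval v (F.map (algebraMap κ L))) ^ ((Fintype.card L - 1) / N)) else 0) =
        ∑ d ∈ n.divisors, ∑ i ∈ range N,
          if T v ∈ Y N z F d i then μ ^ (i * (n / d)) else 0 := by
      intro v
      have h2 := value N z hN hz F n hn (T v) (hTfix v) R μ hμ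
      rw [← hcard] at h2
      refine Eq.trans ?_ (h2.trans ?_)
      · by_cases hv : IsNorm v
        · rw [if_pos hv, if_pos ((hTnorm v).2 hv), ← kv_map e.toRingHom]
          congr 1
          · exact e.commutes z
          · change e (_ ^ _) = _
            rw [map_pow, hTF]
        · rw [if_neg hv, if_neg (fun h => hv ((hTnorm v).1 h))]
      · rfl
    have h3 : projSum L R N (F.map (algebraMap κ L)) (algebraMap κ L z) μ =
        ∑ v : Fin k → L, ∑ d ∈ n.divisors, ∑ i ∈ range N,
          if T v ∈ Y N z F d i then μ ^ (i * (n / d)) else 0 := by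
      unfold projSum
      apply Finset.sum_congr rfl
      intro v _
      rw [← h1 v]
    rw [h3, Finset.sum_comm]
    unfold orbSum
    apply Finset.sum_congr rfl
    intro d hd
    have hdn : d ∣ n := Nat.dvd_of_mem_divisors hd
    have hd0 : 0 < d := Nat.pos_of_mem_divisors hd
    rw [Finset.sum_comm, Finset.mul_sum]
    apply Finset.sum_congr rfl
    intro i _
    rw [← Finset.sum_filter, Finset.sum_const, hcount d i hdn, nsmul_eq_mul, ← mul_assoc,
      ← Nat.cast_mul, Nat.mul_div_cancel' (Y_dvd N z F d i hd0)]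
  refine ⟨hmain, ?_⟩
  rw [← hmain ℤ 1 (one_pow N)]
  have hz' : IsPrimitiveRoot (algebraMap κ L z) N :=
    hz.map_of_injective (algebraMap κ L).injective
  have hNd : N * ((Fintype.card L - 1) / N) = Fintype.card L - 1 := by
    apply Nat.mul_div_cancel'
    apply hz'.dvd_of_pow_eq_one
    exact FiniteField.pow_card_sub_one_eq_one _ (hz'.ne_zero hN.ne')
  have htpos : 0 < (Fintype.card L - 1) / N := by
    have h2 : 2 ≤ Fintype.card L := Fintype.one_lt_card
    rcases Nat.eq_zero_or_pos ((Fintype.card L - 1) / N) with h | h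
    · rw [h, mul_zero] at hNd
      omega
    · exact h
  have : NeZero N := ⟨hN.ne'⟩
  have h5 : ∀ v : Fin k → L, (if IsNorm v then kv N (algebraMap κ L z) (1 : ℤ)
      ((MvPolynomial.eval v (F.map (algebraMap κ L))) ^ ((Fintype.card L - 1) / N)) else 0) =
      if (IsNorm v ∧ MvPolynomial.eval v (F.map (algebraMap κ L)) ≠ 0) then 1 else 0 := by
    intro v
    by_cases hv : IsNorm v
    · by_cases hy : MvPolynomial.eval v (F.map (algebraMap κ L)) = 0
      · rw [if_pos hv, if_neg (fun h => h.2 hy), hy, zero_pow htpos.ne',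
          kv_zero (hz'.ne_zero hN.ne')]
      · obtain ⟨i, _, hi⟩ := hz'.eq_pow_of_pow_eq_one
          (ξ := (MvPolynomial.eval v (F.map (algebraMap κ L))) ^ ((Fintype.card L - 1) / N)) (by
            rw [← pow_mul, mul_comm, hNd]
            exact FiniteField.pow_card_sub_one_eq_one _ hy)
        rw [if_pos hv, if_pos ⟨hv, hy⟩, ← hi, kv_pow hN hz' (one_pow N), one_pow]
    · rw [if_neg hv, if_neg (fun h => hv h.1)]
  have h6 : projSum L ℤ N (F.map (algebraMap κ L)) (algebraMap κ L z) 1 =
      ∑ v : Fin k → L,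
        if (IsNorm v ∧ MvPolynomial.eval v (F.map (algebraMap κ L)) ≠ 0) then (1 : ℤ) else 0 := by
    unfold projSum
    apply Finset.sum_congr rfl
    intro v _
    rw [← h5 v]
  rw [h6, ← Finset.sum_filter, Finset.sum_const, nsmul_eq_mul, mul_one]
  unfold projOpen
  rw [Set.ncard_eq_toFinset_card']
  congr 2
  ext v
  simp

end Pool.Agent.W715.HS.OC
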